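import Pool.Agent.Results.MP_44674b_co.WreathExact

/-!
# Formal self-duality of homogeneous ultrametric schemes
-/

set_option autoImplicit false
set_option linter.unusedSectionVars false

namespace Pool.Agent.Y469.WR

open Finset Pool.Agent.Results.MP_44674b_co.WreathExact

variable {X : Type} [Fintype X] [DecidableEq X] {d : ℕ}

/-! ## ball sizes -/

/-- the ball size as a complex number -/
noncomputable def bs (c : X → X → Fin (d + 1)) (x : X) (i : Fin (d + 1)) : ℂ := (bsize c x i : ℂ)

theorem bsize_pos {c : X → X → Fin (d + 1)} (h : Ultra c) (x : X) (i : Fin (d + 1)) :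
    0 < bsize c x i := by
  refine Finset.card_pos.2 ⟨x, ?_⟩
  rw [Finset.mem_filter, (h.diag x x).2 rfl]
  exact ⟨Finset.mem_univ _, Fin.zero_le _⟩

theorem bsize_zero {c : X → X → Fin (d + 1)} (h : Ultra c) (x : X) : bsize c x 0 = 1 := by
  rw [bsize, Finset.card_eq_one]
  refine ⟨x, ?_⟩
  ext u
  rw [Finset.mem_filter, Finset.mem_singleton, Fin.le_zero_iff, h.diag]
  constructor
  · rintro ⟨-, h1⟩; exact h1.symm
  · intro h1; exact ⟨Finset.mem_univ _, h1.symm⟩

theorem bsize_last' (c : X → X → Fin (d + 1)) (x : X) : bsize c x (Fin.last d) = Fintype.card X := by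
  rw [bsize]
  simp [Fin.le_last]

theorem bsize_two {c : X → X → Fin (d + 1)} (h : Ultra c) (hs : ∀ i, ∃ x y, c x y = i) (x : X)
    (k : Fin d) : 2 * bsize c x k.castSucc ≤ bsize c x k.succ := by
  have hsub : ∀ a, (univ.filter fun u => c a u ≤ k.castSucc) ⊆
      (univ.filter fun u => c a u ≤ k.succ) := by
    intro a u hu
    rw [Finset.mem_filter] at hu ⊢
    exact ⟨hu.1, hu.2.trans (Fin.castSucc_lt_succ).le⟩
  obtain ⟨a, b, hab⟩ := hs k.succ
  have h1 : (univ.filter fun u => c a u ≤ k.castSucc).card <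
      (univ.filter fun u => c a u ≤ k.succ).card := by
    refine Finset.card_lt_card ⟨hsub a, fun hcon => ?_⟩
    have h2 : b ∈ (univ.filter fun u => c a u ≤ k.castSucc) :=
      hcon (Finset.mem_filter.2 ⟨Finset.mem_univ _, hab.le⟩)
    rw [Finset.mem_filter, hab] at h2
    exact absurd h2.2 (not_le.2 Fin.castSucc_lt_succ)
  rw [h.hom k.castSucc a x, h.hom k.succ a x] at h1
  obtain ⟨y, hy1, hy2⟩ := Finset.exists_mem_notMem_of_card_lt_card h1
  rw [Finset.mem_filter] at hy1 hy2
  have hy3 : ¬ c x y ≤ k.castSucc := fun hc => hy2 ⟨Finset.mem_univ _, hc⟩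
  have hdis : Disjoint (univ.filter fun u => c x u ≤ k.castSucc)
      (univ.filter fun u => c y u ≤ k.castSucc) := by
    rw [Finset.disjoint_left]
    intro u hu1 hu2
    rw [Finset.mem_filter] at hu1 hu2
    exact hy3 (h.le_of hu1.2 (by rw [h.symm]; exact hu2.2))
  have hcard := Finset.card_union_of_disjoint hdis
  have hle : ((univ.filter fun u => c x u ≤ k.castSucc) ∪
      (univ.filter fun u => c y u ≤ k.castSucc)) ⊆ (univ.filter fun u => c x u ≤ k.succ) := by
    intro u hu
    rcases Finset.mem_union.1 hu with h2 | h2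
    · exact hsub x h2
    · rw [Finset.mem_filter] at h2 ⊢
      exact ⟨Finset.mem_univ _, h.le_of hy1.2 (h2.2.trans Fin.castSucc_lt_succ.le)⟩
  have h4 := Finset.card_le_card hle
  rw [hcard, h.hom k.castSucc y x] at h4
  rw [bsize, bsize, two_mul]
  exact h4

theorem bs_ne {c : X → X → Fin (d + 1)} (h : Ultra c) (x : X) (i : Fin (d + 1)) : bs c x i ≠ 0 := by
  unfold bs
  exact_mod_cast (bsize_pos h x i).ne'

/-! ## the idempotents -/

/-- the normalised ball matrices, from the largest ball to the smallest one -/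
noncomputable def G (c : X → X → Fin (d + 1)) (x : X) (j : Fin (d + 1)) : Matrix X X ℂ :=
  (bs c x j.rev)⁻¹ • ball c j.rev

/-- the primitive idempotents -/
noncomputable def EE (c : X → X → Fin (d + 1)) (x : X) : Fin (d + 1) → Matrix X X ℂ :=
  Fin.cases (G c x 0) (fun k => G c x k.succ - G c x k.castSucc)

theorem EE_zero (c : X → X → Fin (d + 1)) (x : X) : EE c x 0 = G c x 0 := rfl

theorem EE_succ (c : X → X → Fin (d + 1)) (x : X) (k : Fin d) :
    EE c x k.succ = G c x k.succ - G c x k.castSucc := rfl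

theorem G_mul {c : X → X → Fin (d + 1)} (h : Ultra c) (x : X) (i j : Fin (d + 1)) :
    G c x i * G c x j = G c x (min i j) := by
  rcases le_total i j with hij | hij
  · rw [min_eq_left hij, G, G, smul_mul_smul_comm, mul_ball h (Fin.rev_le_rev.2 hij) x, smul_smul]
    congr 1
    change (bs c x i.rev)⁻¹ * (bs c x j.rev)⁻¹ * bs c x j.rev = _
    rw [mul_assoc, inv_mul_cancel₀ (bs_ne h x _), mul_one]
  · rw [min_eq_right hij, G, G, smul_mul_smul_comm, ball_mul h (Fin.rev_le_rev.2 hij) x, smul_smul]
    congr 1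
    change (bs c x i.rev)⁻¹ * (bs c x j.rev)⁻¹ * bs c x i.rev = _
    rw [mul_right_comm, inv_mul_cancel₀ (bs_ne h x _), one_mul]

theorem EE_mul_G {c : X → X → Fin (d + 1)} (h : Ultra c) (x : X) (i j : Fin (d + 1)) :
    EE c x i * G c x j = if i ≤ j then EE c x i else 0 := by
  induction i using Fin.cases with
  | zero =>
    rw [EE_zero, G_mul h, min_eq_left (Fin.zero_le _), if_pos (Fin.zero_le _)]
  | succ k =>
    rw [EE_succ, sub_mul, G_mul h, G_mul h]
    by_cases hj : k.succ ≤ j
    · rw [if_pos hj, min_eq_left hj, min_eq_left (Fin.castSucc_lt_succ.le.trans hj)]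
    · rw [if_neg hj]
      have h1 : j ≤ k.castSucc := by
        rw [not_le] at hj
        exact Fin.le_castSucc_iff.2 hj
      rw [min_eq_right (not_le.1 hj).le, min_eq_right h1, sub_self]

theorem EE_mul {c : X → X → Fin (d + 1)} (h : Ultra c) (x : X) (i j : Fin (d + 1)) :
    EE c x i * EE c x j = if i = j then EE c x i else 0 := by
  induction j using Fin.cases with
  | zero =>
    rw [EE_zero, EE_mul_G h]
    by_cases hi : i = 0
    · rw [if_pos hi, if_pos hi.le]
    · rw [if_neg hi, if_neg (fun hc => hi (Fin.le_zero_iff.1 hc))]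
  | succ k =>
    rw [EE_succ c x k, mul_sub, EE_mul_G h, EE_mul_G h]
    rcases lt_trichotomy i k.succ with hi | hi | hi
    · rw [if_pos hi.le, if_pos (Fin.le_castSucc_iff.2 hi), if_neg hi.ne, sub_self]
    · rw [if_pos hi.le, if_pos hi, if_neg, sub_zero]
      rw [hi, not_le]
      exact Fin.castSucc_lt_succ
    · rw [if_neg (not_le.2 hi), if_neg (not_le.2 (Fin.castSucc_lt_succ.trans hi)), if_neg hi.ne',
        sub_self]

theorem sum_EE (c : X → X → Fin (d + 1)) (x : X) (j : Fin (d + 1)) :
    ∑ i ∈ univ.filter (fun i => i ≤ j), EE c x i = G c x j := by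
  induction j using Fin.induction with
  | zero =>
    have : (univ.filter fun i : Fin (d + 1) => i ≤ 0) = {0} := by
      ext i
      simp
    rw [this, Finset.sum_singleton, EE_zero]
  | succ k ih =>
    have : (univ.filter fun i : Fin (d + 1) => i ≤ k.succ) =
        insert k.succ (univ.filter fun i : Fin (d + 1) => i ≤ k.castSucc) := by
      ext i
      simp only [Finset.mem_filter, Finset.mem_univ, true_and, Finset.mem_insert]
      constructor
      · intro hi
        rcases hi.eq_or_lt with h1 | h1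
        · exact Or.inl h1
        · exact Or.inr (Fin.le_castSucc_iff.2 h1)
      · rintro (h1 | h1)
        · exact h1.le
        · exact h1.trans Fin.castSucc_lt_succ.le
    rw [this, Finset.sum_insert, ih, EE_succ, sub_add_cancel]
    rw [Finset.mem_filter, not_and]
    intro _
    exact not_le.2 Fin.castSucc_lt_succ

theorem ball_eq_G {c : X → X → Fin (d + 1)} (h : Ultra c) (x : X) (i : Fin (d + 1)) :
    ball c i = bs c x i • G c x i.rev := by
  rw [G, Fin.rev_rev, smul_smul, mul_inv_cancel₀ (bs_ne h x i), one_smul]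

theorem EE_mem (c : X → X → Fin (d + 1)) (x : X) (i : Fin (d + 1)) : EE c x i ∈ boseMesner c := by
  have hG : ∀ j, G c x j ∈ boseMesner c := fun j => Submodule.smul_mem _ _ (ball_mem _ _)
  induction i using Fin.cases with
  | zero => exact hG 0
  | succ k => exact Submodule.sub_mem _ (hG _) (hG _)

/-- every element of the Bose-Mesner algebra is a combination of the idempotents -/
theorem exists_coef {c : X → X → Fin (d + 1)} (h : Ultra c) (x : X) {f : Matrix X X ℂ}
    (hf : f ∈ boseMesner c) : ∃ μ : Fin (d + 1) → ℂ, f = ∑ i, μ i • EE c x i := by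
  rw [boseMesner_eq] at hf
  induction hf using Submodule.span_induction with
  | zero => exact ⟨0, by simp⟩
  | add a b _ _ ha hb =>
    obtain ⟨u, hu⟩ := ha
    obtain ⟨v, hv⟩ := hb
    refine ⟨u + v, ?_⟩
    rw [hu, hv, ← Finset.sum_add_distrib]
    exact Finset.sum_congr rfl fun i _ => (add_smul _ _ _).symm
  | smul r a _ ha =>
    obtain ⟨u, hu⟩ := ha
    refine ⟨fun i => r * u i, ?_⟩
    rw [hu, Finset.smul_sum]
    exact Finset.sum_congr rfl fun i _ => smul_smul _ _ _
  | mem a ha =>
    obtain ⟨i, rfl⟩ := ha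
    refine ⟨fun j => if j ≤ i.rev then bs c x i else 0, ?_⟩
    rw [ball_eq_G h x i, ← sum_EE, Finset.smul_sum, Finset.sum_filter]
    refine Finset.sum_congr rfl fun j _ => ?_
    dsimp only
    split_ifs
    · rfl
    · rw [zero_smul]

theorem mul_comb {c : X → X → Fin (d + 1)} (h : Ultra c) (x : X) (μ : Fin (d + 1) → ℂ)
    (i : Fin (d + 1)) : EE c x i * ∑ j, μ j • EE c x j = μ i • EE c x i := by
  rw [Finset.mul_sum, Finset.sum_eq_single i]
  · rw [mul_smul_comm, EE_mul h, if_pos rfl]
  · intro j _ hj
    rw [mul_smul_comm, EE_mul h, if_neg hj.symm, smul_zero]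
  · intro hi
    exact absurd (Finset.mem_univ i) hi

/-- traces of the normalised ball matrices -/
theorem G_diag {c : X → X → Fin (d + 1)} (h : Ultra c) (x y : X) (j : Fin (d + 1)) :
    G c x j y y = (bs c x j.rev)⁻¹ := by
  rw [G, Matrix.smul_apply, ball, (h.diag y y).2 rfl, if_pos (Fin.zero_le _), smul_eq_mul, mul_one]

theorem G_trace {c : X → X → Fin (d + 1)} (h : Ultra c) (x : X) (j : Fin (d + 1)) :
    Matrix.trace (G c x j) = (Fintype.card X : ℂ) * (bs c x j.rev)⁻¹ := by
  rw [Matrix.trace]
  simp only [Matrix.diag_apply, G_diag h]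
  rw [Finset.sum_const, Finset.card_univ, nsmul_eq_mul]

theorem EE_ne {c : X → X → Fin (d + 1)} (h : Ultra c) (hs : ∀ i, ∃ x y, c x y = i) (x : X)
    (i : Fin (d + 1)) : EE c x i ≠ 0 := by
  intro h0
  have h1 := congrFun (congrFun h0 x) x
  induction i using Fin.cases with
  | zero =>
    rw [EE_zero, G_diag h, Matrix.zero_apply] at h1
    exact inv_ne_zero (bs_ne h x _) h1
  | succ k =>
    rw [EE_succ, Matrix.sub_apply, G_diag h, G_diag h, Matrix.zero_apply, sub_eq_zero, inv_inj] at h1
    have h2 : bsize c x k.succ.rev = bsize c x k.castSucc.rev := by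
      unfold bs at h1
      exact_mod_cast h1
    rw [Fin.rev_succ, Fin.rev_castSucc] at h2
    have h3 := bsize_two h hs x k.rev
    have h4 := bsize_pos h x k.rev.castSucc
    omega

theorem EE_prim {c : X → X → Fin (d + 1)} (h : Ultra c) (hs : ∀ i, ∃ x y, c x y = i) (x : X)
    (i : Fin (d + 1)) : (h.scheme hs).IsPrimitiveIdempotent (EE c x i) := by
  refine ⟨EE_mem c x i, by rw [EE_mul h, if_pos rfl], EE_ne h hs x i, ?_⟩
  intro f hf hff hef
  obtain ⟨μ, hμ⟩ := exists_coef h x hf
  have h1 : f = μ i • EE c x i := by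
    rw [← hef, hμ, mul_comb h]
  rw [h1, smul_mul_smul_comm, EE_mul h, if_pos rfl] at hff
  have h2 : (μ i * μ i - μ i) • EE c x i = 0 := by rw [sub_smul, hff, sub_self]
  rcases smul_eq_zero.1 h2 with h3 | h3
  · have h4 : μ i * (μ i - 1) = 0 := by rw [mul_sub, mul_one]; exact h3
    rcases mul_eq_zero.1 h4 with h5 | h5
    · left; rw [h1, h5, zero_smul]
    · right; rw [h1, sub_eq_zero.1 h5, one_smul]
  · exact absurd h3 (EE_ne h hs x i)

theorem EE_inj {c : X → X → Fin (d + 1)} (h : Ultra c) (hs : ∀ i, ∃ x y, c x y = i) (x : X) :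
    Function.Injective (EE c x) := by
  intro i j hij
  by_contra hne
  have h1 := EE_mul h x i j
  rw [if_neg hne, ← hij, EE_mul h, if_pos rfl] at h1
  exact EE_ne h hs x i h1

theorem prim_iff {c : X → X → Fin (d + 1)} (h : Ultra c) (hs : ∀ i, ∃ x y, c x y = i) (x : X)
    (e : Matrix X X ℂ) : (h.scheme hs).IsPrimitiveIdempotent e ↔ ∃ j, EE c x j = e := by
  constructor
  · rintro ⟨h1, h2, h3, h4⟩
    obtain ⟨μ, hμ⟩ := exists_coef h x h1
    have hex : ∃ j, μ j ≠ 0 := by
      by_contra hcon
      push Not at hcon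
      apply h3
      rw [hμ]
      exact Finset.sum_eq_zero fun j _ => by rw [hcon j, zero_smul]
    obtain ⟨j, hj⟩ := hex
    have h5 : EE c x j * e = μ j • EE c x j := by rw [hμ, mul_comb h]
    have h6 : μ j = 1 := by
      have h7 : EE c x j * (e * e) = (μ j * μ j) • EE c x j := by
        rw [← mul_assoc, h5, smul_mul_assoc, h5, smul_smul]
      rw [h2, h5] at h7
      have h8 : (μ j * μ j - μ j) • EE c x j = 0 := by rw [sub_smul, ← h7, sub_self]
      rcases smul_eq_zero.1 h8 with h9 | h9
      · have h10 : μ j * (μ j - 1) = 0 := by rw [mul_sub, mul_one]; exact h9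
        rcases mul_eq_zero.1 h10 with h11 | h11
        · exact absurd h11 hj
        · exact sub_eq_zero.1 h11
      · exact absurd h9 (EE_ne h hs x j)
    have h7 : e * EE c x j = EE c x j := by
      rw [(bm_mul h x h1 (EE_mem c x j)).2, h5, h6, one_smul]
    rcases h4 _ (EE_mem c x j) (by rw [EE_mul h, if_pos rfl]) h7 with h8 | h8
    · exact absurd h8 (EE_ne h hs x j)
    · exact ⟨j, h8⟩
  · rintro ⟨j, rfl⟩
    exact EE_prim h hs x j

/-! ## the criterion -/

theorem adj_zero {c : X → X → Fin (d + 1)} : adj c 0 = ball c 0 := by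
  ext a b
  simp only [adj, ball, Fin.le_zero_iff]

theorem adj_succ (c : X → X → Fin (d + 1)) (k : Fin d) :
    adj c k.succ = ball c k.succ - ball c k.castSucc := by
  ext a b
  simp only [adj, ball, Matrix.sub_apply]
  rcases lt_trichotomy (c a b) k.succ with h | h | h
  · rw [if_neg h.ne, if_pos h.le, if_pos (Fin.le_castSucc_iff.2 h), sub_self]
  · rw [if_pos h, if_pos h.le, if_neg, sub_zero]
    rw [h, not_le]
    exact Fin.castSucc_lt_succ
  · rw [if_neg h.ne', if_neg (not_le.2 h), if_neg (not_le.2 (Fin.castSucc_lt_succ.trans h)), sub_self]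

/-- the common eigenmatrix in the self-dual case -/
noncomputable def PM (c : X → X → Fin (d + 1)) (x : X) : Matrix (Fin (d + 1)) (Fin (d + 1)) ℂ :=
  fun j => Fin.cases 1 (fun k => (if j ≤ k.succ.rev then bs c x k.succ else 0) -
    (if j ≤ k.castSucc.rev then bs c x k.castSucc else 0))

theorem smul_sum_le (M : Fin (d + 1) → Matrix X X ℂ) (r : ℂ) (i : Fin (d + 1)) :
    r • ∑ j ∈ univ.filter (fun j => j ≤ i), M j = ∑ j, (if j ≤ i then r else 0) • M j := by
  rw [Finset.smul_sum, Finset.sum_filter]
  refine Finset.sum_congr rfl fun j _ => ?_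
  split_ifs
  · rfl
  · rw [zero_smul]

theorem selfDual_of {c : X → X → Fin (d + 1)} (h : Ultra c) (hs : ∀ i, ∃ x y, c x y = i) (x : X)
    (hb : ∀ i, bsize c x i * bsize c x i.rev = Fintype.card X) :
    (h.scheme hs).FormallySelfDual := by
  have hN : (Fintype.card X : ℂ) ≠ 0 := by
    have : 0 < Fintype.card X := Fintype.card_pos_iff.mpr ⟨x⟩
    exact_mod_cast this.ne'
  have hbC : ∀ i, bs c x i * bs c x i.rev = (Fintype.card X : ℂ) := by
    intro i
    unfold bs
    exact_mod_cast hb i
  have hG : ∀ i, G c x i = (Fintype.card X : ℂ)⁻¹ • (bs c x i • ball c i.rev) := by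
    intro i
    rw [G, smul_smul]
    congr 1
    rw [← hbC i, mul_inv, mul_right_comm, inv_mul_cancel₀ (bs_ne h x i), one_mul]
  refine ⟨Equiv.refl _, EE c x, PM c x, PM c x, EE_inj h hs x, prim_iff h hs x, ?_, ?_, ?_, rfl⟩
  · rw [EE_zero, G, Fin.rev_zero]
    have h1 : bs c x (Fin.last d) = (Fintype.card X : ℂ) := by
      unfold bs
      rw [bsize_last']
    rw [h1]
    congr 1
    ext a b
    exact ball_last c a b
  · intro i
    change adj c i = _
    induction i using Fin.cases with
    | zero =>
      rw [adj_zero, ball_eq_G h x 0]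
      have h1 : bs c x 0 = 1 := by
        unfold bs
        rw [bsize_zero h, Nat.cast_one]
      rw [h1, one_smul, ← sum_EE]
      have h2 : (univ.filter fun j : Fin (d + 1) => j ≤ (0 : Fin (d + 1)).rev) = univ := by
        ext j
        simp [Fin.rev_zero, Fin.le_last]
      rw [h2]
      refine Finset.sum_congr rfl fun j _ => ?_
      change _ = (1 : ℂ) • _
      rw [one_smul]
    | succ k =>
      rw [adj_succ, ball_eq_G h x, ball_eq_G h x, ← sum_EE, ← sum_EE, smul_sum_le, smul_sum_le,
        ← Finset.sum_sub_distrib]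
      refine Finset.sum_congr rfl fun j _ => ?_
      rw [← sub_smul]
      rfl
  · intro i
    change EE c x i = (Fintype.card X : ℂ)⁻¹ • ∑ j, PM c x j i • adj c j
    induction i using Fin.cases with
    | zero =>
      rw [EE_zero, hG]
      have h1 : bs c x 0 = 1 := by
        unfold bs
        rw [bsize_zero h, Nat.cast_one]
      rw [h1, one_smul, ball_eq_sum]
      have h2 : (univ.filter fun j : Fin (d + 1) => j ≤ (0 : Fin (d + 1)).rev) = univ := by
        ext j
        simp [Fin.rev_zero, Fin.le_last]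
      rw [h2]
      congr 1
      refine Finset.sum_congr rfl fun j _ => ?_
      change _ = (1 : ℂ) • _
      rw [one_smul]
    | succ k =>
      rw [EE_succ, hG, hG, ← smul_sub, ball_eq_sum, ball_eq_sum, smul_sum_le, smul_sum_le,
        ← Finset.sum_sub_distrib]
      congr 1
      refine Finset.sum_congr rfl fun j _ => ?_
      rw [← sub_smul]
      rfl

/-- valencies -/
theorem val_succ {c : X → X → Fin (d + 1)} (x : X) (k : Fin d) :
    (univ.filter fun y => c x y = k.succ).card + bsize c x k.castSucc = bsize c x k.succ := by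
  rw [bsize, bsize, ← Finset.card_union_of_disjoint]
  · congr 1
    ext y
    simp only [Finset.mem_union, Finset.mem_filter, Finset.mem_univ, true_and]
    constructor
    · rintro (h1 | h1)
      · exact h1.le
      · exact h1.trans Fin.castSucc_lt_succ.le
    · intro h1
      rcases h1.eq_or_lt with h2 | h2
      · exact Or.inl h2
      · exact Or.inr (Fin.le_castSucc_iff.2 h2)
  · rw [Finset.disjoint_left]
    intro y h1 h2
    rw [Finset.mem_filter] at h1 h2
    rw [h1.2] at h2
    exact absurd h2.2 (not_le.2 Fin.castSucc_lt_succ)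

theorem of_selfDual {c : X → X → Fin (d + 1)} (h : Ultra c) (hs : ∀ i, ∃ x y, c x y = i) (x : X)
    (hF : (h.scheme hs).FormallySelfDual) :
    ∀ i, bsize c x i * bsize c x i.rev = Fintype.card X := by
  have hN : (Fintype.card X : ℂ) ≠ 0 := by
    have : 0 < Fintype.card X := Fintype.card_pos_iff.mpr ⟨x⟩
    exact_mod_cast this.ne'
  have hNR : (0 : ℝ) < Fintype.card X := by
    exact_mod_cast (Fintype.card_pos_iff.mpr ⟨x⟩)
  -- real ball sizes
  let b : Fin (d + 1) → ℝ := fun i => (bsize c x i : ℝ)
  let a : Fin (d + 1) → ℝ := fun i => (Fintype.card X : ℝ) / b i.rev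
  have hbpos : ∀ i, 0 < b i := fun i => by
    have := bsize_pos h x i
    show (0 : ℝ) < (bsize c x i : ℝ)
    exact_mod_cast this
  have hb2 : ∀ k : Fin d, 2 * b k.castSucc ≤ b k.succ := fun k => by
    have := bsize_two h hs x k
    show 2 * (bsize c x k.castSucc : ℝ) ≤ (bsize c x k.succ : ℝ)
    exact_mod_cast this
  have ha2 : ∀ k : Fin d, 2 * a k.castSucc ≤ a k.succ := by
    intro k
    have h1 := hb2 k.rev
    have h2 : a k.castSucc = (Fintype.card X : ℝ) / b k.rev.succ := by
      simp only [a, Fin.rev_castSucc]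
    have h3 : a k.succ = (Fintype.card X : ℝ) / b k.rev.castSucc := by
      simp only [a, Fin.rev_succ]
    rw [h2, h3, mul_div_assoc', div_le_div_iff₀ (hbpos _) (hbpos _)]
    nlinarith [hbpos k.rev.castSucc, hbpos k.rev.succ]
  have hapos : ∀ i, 0 < a i := fun i => div_pos hNR (hbpos _)
  -- valencies and multiplicities
  let v : Fin d → ℝ := fun k => b k.succ - b k.castSucc
  let m : Fin d → ℝ := fun k => a k.succ - a k.castSucc
  have hmono : ∀ f : Fin (d + 1) → ℝ, (∀ i, 0 < f i) → (∀ k : Fin d, 2 * f k.castSucc ≤ f k.succ) →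
      StrictMono (fun k : Fin d => f k.succ - f k.castSucc) := by
    intro f hf0 hf2
    have hf1 : Monotone f := by
      rw [Fin.monotone_iff_le_succ]
      intro k
      have := hf2 k
      have := hf0 k.castSucc
      linarith
    intro i j hij
    have h1 : i.succ ≤ j.castSucc := by
      rw [Fin.le_castSucc_iff]
      exact Fin.succ_lt_succ_iff.2 hij
    have h2 := hf1 h1
    have h3 := hf2 j
    have h4 := hf0 i.castSucc
    show f i.succ - f i.castSucc < f j.succ - f j.castSucc
    linarith
  have hv : StrictMono v := hmono b hbpos hb2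
  have hm : StrictMono m := hmono a hapos ha2
  have hex : ∀ k : Fin d, ∃ l : Fin d, v l = m k := by
    intro k
    have hne : EE c x k.succ ≠ (Fintype.card X : ℂ)⁻¹ • (fun _ _ => 1 : Matrix X X ℂ) := by
      intro h0
      have h1 : EE c x 0 = (Fintype.card X : ℂ)⁻¹ • (fun _ _ => 1 : Matrix X X ℂ) := by
        rw [EE_zero, G, Fin.rev_zero]
        have h1 : bs c x (Fin.last d) = (Fintype.card X : ℂ) := by
          unfold bs
          rw [bsize_last']
        rw [h1]
        congr 1
        ext a b
        exact ball_last c a b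
      exact absurd (EE_inj h hs x (h0.trans h1.symm)) (Fin.succ_ne_zero k)
    obtain ⟨l, hl0, hl⟩ := fsd_valency h hs hF _ (EE_prim h hs x k.succ) hne x
    obtain ⟨l', rfl⟩ := Fin.exists_succ_eq.2 hl0
    refine ⟨l', ?_⟩
    have h1 : ((univ.filter fun y => c x y = l'.succ).card : ℝ) = v l' := by
      have := val_succ (c := c) x l'
      have h2 : ((univ.filter fun y => c x y = l'.succ).card : ℝ) + b l'.castSucc = b l'.succ := by
        show ((univ.filter fun y => c x y = l'.succ).card : ℝ) + (bsize c x l'.castSucc : ℝ) =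
          (bsize c x l'.succ : ℝ)
        exact_mod_cast this
      simp only [v]
      linarith
    have h2 : Matrix.trace (EE c x k.succ) = ((m k : ℝ) : ℂ) := by
      rw [EE_succ, Matrix.trace_sub, G_trace h, G_trace h]
      simp only [m, a, b, bs]
      push_cast
      rw [div_eq_mul_inv, div_eq_mul_inv]
    rw [h2] at hl
    rw [← h1]
    exact_mod_cast hl
  choose l hl using hex
  have hlmono : StrictMono l := by
    intro i j hij
    by_contra hcon
    have h1 := hv.monotone (not_lt.1 hcon)
    rw [hl, hl] at h1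
    exact absurd (hm hij) (not_lt.2 h1)
  have hlid : ∀ k, l k = k := fun k => le_antisymm (hlmono.le_id k) (hlmono.id_le k)
  have hvm : ∀ k, v k = m k := fun k => by rw [← hl k, hlid k]
  have hab : ∀ i, b i = a i := by
    intro i
    induction i using Fin.induction with
    | zero =>
      simp only [b, a, Fin.rev_zero, bsize_zero h, bsize_last', Nat.cast_one]
      rw [div_self hNR.ne']
    | succ k ih =>
      have := hvm k
      simp only [v, m] at this
      linarith
  intro i
  have h1 := hab i
  have h2 : b i * b i.rev = (Fintype.card X : ℝ) := by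
    rw [h1]
    simp only [a]
    rw [div_mul_cancel₀ _ (hbpos _).ne']
  have h3 : (bsize c x i : ℝ) * (bsize c x i.rev : ℝ) = (Fintype.card X : ℝ) := h2
  exact_mod_cast h3

end Pool.Agent.Y469.WR
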